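import Mathlib
import Pool.Agent.H765R3.Had.Sum
import Pool.Agent.H765R3.Had.Inv

set_option autoImplicit false

namespace Pool.Agent.U122.Fib

open Set
open scoped Pointwise

/-- `f` attains its maximum over `K` at `x`. -/
def Supports {V : Type*} [AddCommGroup V] [Module ℝ V] [TopologicalSpace V]
    (K : Set V) (x : V) (f : V →L[ℝ] ℝ) : Prop := ∀ z ∈ K, f z ≤ f x

section general

variable {V : Type*} [NormedAddCommGroup V] [NormedSpace ℝ V]

/-- Hahn–Banach: a direction on which all supporting functionals are negative leads into the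
interior. -/
theorem enter {K : Set V} (hK : Convex ℝ K) (hKi : (interior K).Nonempty) {x d : V} (hx : x ∈ K)
    (h : ∀ f : V →L[ℝ] ℝ, f ≠ 0 → Supports K x f → f d < 0) :
    ∃ ε : ℝ, 0 < ε ∧ x + ε • d ∈ interior K := by
  by_contra hcon
  push Not at hcon
  set R : Set V := {y | ∃ ε : ℝ, 0 < ε ∧ y = x + ε • d} with hR
  have hRc : Convex ℝ R := by
    rintro _ ⟨a, ha, rfl⟩ _ ⟨b, hb, rfl⟩ s t hs ht hst
    refine ⟨s * a + t * b, ?_, ?_⟩
    · rcases hs.eq_or_lt with h0 | h0
      · have : t = 1 := by linarith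
        subst this; rw [← h0]; linarith
      · have := mul_pos h0 ha
        have := mul_nonneg ht hb.le
        linarith
    · have : x = s • x + t • x := by rw [← add_smul, hst, one_smul]
      nth_rw 3 [this]
      simp only [smul_add, add_smul, smul_smul]
      abel
  have hdis : Disjoint (interior K) R := by
    rw [Set.disjoint_left]
    rintro y hy ⟨ε, hε, rfl⟩
    exact hcon ε hε hy
  obtain ⟨f, u, h1, h2⟩ := geometric_hahn_banach_open hK.interior isOpen_interior hRc hdis
  have hfx : u ≤ f x := by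
    have ht : Filter.Tendsto (fun ε : ℝ => f (x + ε • d)) (nhdsWithin 0 (Set.Ioi 0)) (nhds (f x)) := by
      have : Continuous fun ε : ℝ => f (x + ε • d) := by fun_prop
      have h0 := this.tendsto 0
      simp only [zero_smul, add_zero] at h0
      exact h0.mono_left nhdsWithin_le_nhds
    refine ge_of_tendsto ht ?_
    filter_upwards [self_mem_nhdsWithin] with ε hε
    exact h2 _ ⟨ε, hε, rfl⟩
  have hle : ∀ z ∈ K, f z ≤ u := by
    intro z hz
    have hcl : K ⊆ closure (interior K) := by
      rw [hK.closure_interior_eq_closure_of_nonempty_interior hKi]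
      exact subset_closure
    have : closure (interior K) ⊆ {z | f z ≤ u} :=
      closure_minimal (fun z hz => (h1 z hz).le) (isClosed_le f.continuous continuous_const)
    exact this (hcl hz)
  have hsup : Supports K x f := fun z hz => (hle z hz).trans hfx
  have hf0 : f ≠ 0 := by
    rintro rfl
    obtain ⟨a, ha⟩ := hKi
    have := h1 a ha
    simp only [zero_apply] at this hfx
    linarith
  have hneg := h f hf0 hsup
  have h3 := h2 (x + (1 : ℝ) • d) ⟨1, one_pos, rfl⟩
  have hxu : f x = u := le_antisymm (hle x hx) hfx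
  rw [map_add, one_smul, hxu] at h3
  linarith

/-- A nonzero functional is smaller at interior points. -/
theorem interior_lt {K : Set V} {x z : V} {f : V →L[ℝ] ℝ} (hf : f ≠ 0) (h : Supports K x f)
    (hz : z ∈ interior K) : f z < f x := by
  obtain ⟨w, hw⟩ : ∃ w, 0 < f w := by
    by_contra hcon
    push Not at hcon
    apply hf
    ext w
    have h1 := hcon w
    have h2 := hcon (-w)
    rw [map_neg] at h2
    simp only [zero_apply]
    linarith
  have hnear : ∀ᶠ ε : ℝ in nhdsWithin 0 (Set.Ioi 0), z + ε • w ∈ interior K := by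
    have hc : Continuous fun ε : ℝ => z + ε • w := by fun_prop
    have : (fun ε : ℝ => z + ε • w) ⁻¹' interior K ∈ nhds (0 : ℝ) :=
      (isOpen_interior.preimage hc).mem_nhds (by simpa using hz)
    exact nhdsWithin_le_nhds this
  obtain ⟨ε, hε, hε0⟩ := (hnear.and self_mem_nhdsWithin).exists
  have h3 := h _ (interior_subset hε)
  rw [map_add, map_smul, smul_eq_mul] at h3
  have := mul_pos (show (0 : ℝ) < ε from hε0) hw
  linarith

/-- If `f ≤ 0` on the halfspace `g ≤ 0` then `f` is a nonnegative multiple of `g`. -/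
theorem ray {f g : V →L[ℝ] ℝ} (h : ∀ w, g w ≤ 0 → f w ≤ 0) : ∃ c : ℝ, 0 ≤ c ∧ f = c • g := by
  by_cases hg : g = 0
  · refine ⟨0, le_rfl, ?_⟩
    subst hg
    ext w
    have h1 := h w (by simp)
    have h2 := h (-w) (by simp)
    rw [map_neg] at h2
    simp only [smul_zero, zero_apply]
    linarith
  · obtain ⟨w₁, hw₁⟩ : ∃ w, g w ≠ 0 := by
      by_contra hcon
      push Not at hcon
      exact hg (by ext w; simpa using hcon w)
    set w₀ : V := (-(g w₁)⁻¹) • w₁ with hw₀
    have hg0 : g w₀ = -1 := by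
      rw [hw₀, map_smul, smul_eq_mul]
      field_simp
    refine ⟨-(f w₀), ?_, ?_⟩
    · have := h w₀ (by rw [hg0]; norm_num)
      linarith
    · ext w
      have e1 : g (w + g w • w₀) = 0 := by
        rw [map_add, map_smul, hg0, smul_eq_mul]; ring
      have h1 := h _ e1.le
      have e2 : g (-(w + g w • w₀)) = 0 := by rw [map_neg, e1, neg_zero]
      have h2 := h _ e2.le
      rw [map_neg] at h2
      rw [map_add, map_smul, smul_eq_mul] at h1 h2
      simp only [smul_apply, smul_eq_mul]
      linarith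

/-- Directions with a uniform gain, from a covering by translates of the interior. -/
theorem dirs {L : Set V} (hLc : IsCompact L) {N : ℕ} (hN : ∃ T : Finset V, T.card ≤ N ∧
    L ⊆ ⋃ t ∈ T, (fun x => t + x) '' interior L) :
    ∃ (D : Finset V) (κ : ℝ), D.card ≤ N ∧ 0 < κ ∧
      ∀ w ∈ L, ∃ v ∈ D, ∀ q : V →L[ℝ] ℝ, Supports L w q → q v ≤ -(κ * ‖q‖) := by
  classical
  obtain ⟨T, hT, hcov⟩ := hN
  obtain ⟨δ, hδ, h1⟩ := lebesgue_number_lemma_of_metric (s := L)
    (c := fun t : T => (fun x => (t : V) + x) '' interior L) hLc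
    (fun t => (isOpenMap_add_left (t : V)) _ isOpen_interior) (by
      intro x hx
      obtain ⟨t, ht, h2⟩ := Set.mem_iUnion₂.1 (hcov hx)
      exact Set.mem_iUnion.2 ⟨⟨t, ht⟩, h2⟩)
  refine ⟨T.image (fun t => -t), δ / 2, Finset.card_image_le.trans hT, by positivity,
    fun w hw => ?_⟩
  obtain ⟨t, ht⟩ := h1 w hw
  refine ⟨-(t : V), Finset.mem_image_of_mem _ t.2, fun q hq => ?_⟩
  have key : ∀ s : V, ‖s‖ ≤ 1 → (δ / 2) * q s ≤ q (t : V) := by
    intro s hs
    have hmem : w + (δ / 2) • s ∈ Metric.ball w δ := by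
      rw [Metric.mem_ball, dist_eq_norm, add_sub_cancel_left, norm_smul, Real.norm_eq_abs,
        abs_of_pos (by positivity)]
      nlinarith [norm_nonneg s]
    obtain ⟨z, hz, h2⟩ := ht hmem
    have h3 := hq z (interior_subset hz)
    have h4 : z = w + (δ / 2) • s - t := by rw [← h2]; simp
    rw [h4, map_sub, map_add, map_smul, smul_eq_mul] at h3
    linarith
  rw [map_neg]
  have h0 : 0 ≤ q (t : V) := by simpa using key 0 (by simp)
  have h5 : ‖q‖ ≤ q (t : V) / (δ / 2) := by
    refine ContinuousLinearMap.opNorm_le_bound q (by positivity) fun x => ?_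
    rcases eq_or_ne x 0 with rfl | hx
    · simp
    · have hx0 : 0 < ‖x‖ := norm_pos_iff.2 hx
      have h6 : ‖(‖x‖)⁻¹ • x‖ ≤ 1 := by
        rw [norm_smul, norm_inv, norm_norm, inv_mul_cancel₀ hx0.ne']
      have h7 := key _ h6
      have h8 := key (-((‖x‖)⁻¹ • x)) (by rwa [norm_neg])
      rw [map_neg, map_smul, smul_eq_mul] at h8
      rw [map_smul, smul_eq_mul] at h7
      rw [Real.norm_eq_abs, abs_le]
      have e1 : (δ / 2) * ((‖x‖)⁻¹ * q x) = (δ / 2) * q x / ‖x‖ := by field_simp
      have e2 : (δ / 2) * -((‖x‖)⁻¹ * q x) = -((δ / 2) * q x) / ‖x‖ := by field_simp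
      rw [e1, div_le_iff₀ hx0] at h7
      rw [e2, div_le_iff₀ hx0] at h8
      constructor
      · have h9 : -(q x) ≤ q (t : V) * ‖x‖ / (δ / 2) := by
          rw [le_div_iff₀ (by positivity)]
          linarith
        rw [div_mul_eq_mul_div]
        linarith
      · rw [div_mul_eq_mul_div, le_div_iff₀ (by positivity)]
        linarith
  have h6 : (δ / 2) * ‖q‖ ≤ q (t : V) := by
    rwa [le_div_iff₀ (by positivity), mul_comm] at h5
  linarith

end general

section fibration

variable {X Y : Type*} [NormedAddCommGroup X] [NormedSpace ℝ X]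
  [NormedAddCommGroup Y] [NormedSpace ℝ Y]

/-- The restriction of a functional on `X × Y` to `Y`. -/
noncomputable def onY (f : X × Y →L[ℝ] ℝ) : Y →L[ℝ] ℝ := f.comp (ContinuousLinearMap.inr ℝ X Y)

/-- The restriction of a functional on `X × Y` to `X`. -/
noncomputable def onX (f : X × Y →L[ℝ] ℝ) : X →L[ℝ] ℝ := f.comp (ContinuousLinearMap.inl ℝ X Y)

theorem split (f : X × Y →L[ℝ] ℝ) (x : X) (y : Y) : f (x, y) = onX f x + onY f y := by
  simp only [onX, onY, ContinuousLinearMap.comp_apply, ContinuousLinearMap.inl_apply,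
    ContinuousLinearMap.inr_apply]
  rw [← map_add]
  simp

/-- **The fibration theorem.** -/
theorem fibration {K : Set (X × Y)} (hK : Convex ℝ K) (hKc : IsCompact K)
    (hKi : (interior K).Nonempty) (V : Finset Y) {κ : ℝ} (hκ : 0 < κ)
    (hV : ∀ x ∈ K, ∃ v ∈ V, ∀ f : X × Y →L[ℝ] ℝ, Supports K x f → onY f v ≤ -(κ * ‖onY f‖))
    {N : ℕ} (hN : ∃ T : Finset X, T.card ≤ N ∧
      Prod.fst '' K ⊆ ⋃ t ∈ T, (fun x => t + x) '' interior (Prod.fst '' K)) :
    ∃ T : Finset (X × Y), T.card ≤ N * V.card ∧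
      K ⊆ ⋃ t ∈ T, (fun x => t + x) '' interior K := by
  classical
  obtain ⟨T, hT, hcov⟩ := hN
  obtain ⟨D, hD⟩ := hKc.isBounded.subset_closedBall (0 : X × Y)
  set R : ℝ := (2 * |D| + 1) / κ with hR
  have hRpos : 0 < R := by positivity
  have hDb : ∀ z ∈ K, ‖z.2‖ ≤ |D| := by
    intro z hz
    have h1 := hD hz
    rw [Metric.mem_closedBall, dist_zero_right] at h1
    exact (norm_snd_le z).trans (h1.trans (le_abs_self D))
  obtain ⟨S, hS, hS'⟩ := Pool.Agent.H765R3.Had.cover_of_dirs hK hKc
    ((T ×ˢ V).image fun p => (p.1, -(R • p.2))) (by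
      intro x hx
      obtain ⟨b, hb, hb'⟩ := Set.mem_iUnion₂.1 (hcov ⟨x, hx, rfl⟩)
      obtain ⟨t, ht, htx⟩ := hb'
      obtain ⟨v, hv, hfv⟩ := hV x hx
      refine ⟨(b, -(R • v)), Finset.mem_image.2 ⟨(b, v), Finset.mem_product.2 ⟨hb, hv⟩, rfl⟩, ?_⟩
      have ht' : t = x.1 - b := by rw [← htx]; simp
      obtain ⟨ε, hε, h1⟩ := enter (d := (-b, R • v)) hK hKi hx (by
        intro f hf hsup
        rw [split]
        by_cases hq : onY f = 0
        · rw [hq]
          simp only [zero_apply, add_zero]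
          have hp0 : onX f ≠ 0 := by
            intro h0
            apply hf
            refine ContinuousLinearMap.ext fun z => ?_
            have e1 : f z = onX f z.1 + onY f z.2 := split f z.1 z.2
            rw [e1, h0, hq]
            simp
          have hp : Supports (Prod.fst '' K) x.1 (onX f) := by
            rintro _ ⟨z, hz, rfl⟩
            have h2 := hsup z hz
            have e1 : f z = onX f z.1 + onY f z.2 := split f z.1 z.2
            have e2 : f x = onX f x.1 + onY f x.2 := split f x.1 x.2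
            rw [e1, e2, hq] at h2
            simpa using h2
          have h3 := interior_lt hp0 hp ht
          rw [ht', map_sub] at h3
          rw [map_neg]
          linarith
        · obtain ⟨z, hz, hzt⟩ := interior_subset ht
          have h2 := hsup z hz
          have e1 : f z = onX f z.1 + onY f z.2 := split f z.1 z.2
          have e2 : f x = onX f x.1 + onY f x.2 := split f x.1 x.2
          rw [e1, e2, hzt, ht', map_sub] at h2
          have h4 := hfv f hsup
          have hqpos : 0 < ‖onY f‖ := norm_pos_iff.2 hq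
          have h5 : onY f (x.2 - z.2) ≤ ‖onY f‖ * (2 * |D|) := by
            refine (le_abs_self _).trans ?_
            rw [← Real.norm_eq_abs]
            refine ((onY f).le_opNorm _).trans ?_
            refine mul_le_mul_of_nonneg_left ?_ (norm_nonneg _)
            have := norm_sub_le x.2 z.2
            have := hDb x hx
            have := hDb z hz
            linarith
          rw [map_sub] at h5
          rw [map_neg, map_smul, smul_eq_mul]
          have h6 : R * onY f v ≤ R * -(κ * ‖onY f‖) := mul_le_mul_of_nonneg_left h4 hRpos.le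
          have h7 : R * -(κ * ‖onY f‖) = -((2 * |D| + 1) * ‖onY f‖) := by
            rw [hR]; field_simp
          nlinarith)
      refine ⟨ε, hε, ?_⟩
      have e : x - ε • (b, -(R • v)) = x + ε • (-b, R • v) := by
        ext <;> simp [sub_eq_add_neg]
      rw [e]
      exact h1)
  refine ⟨S, hS.trans (Finset.card_image_le.trans ?_), hS'⟩
  rw [Finset.card_product]
  exact Nat.mul_le_mul_right _ hT

/-- `K` is smooth along `Y`: the functionals supporting `K` at a point are, on `Y`, nonnegative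
multiples of one of them. -/
def SmoothAlong (K : Set (X × Y)) : Prop :=
  ∀ x ∈ K, ∀ f g : X × Y →L[ℝ] ℝ, Supports K x f → Supports K x g → onY g ≠ 0 →
    ∃ c : ℝ, 0 ≤ c ∧ onY f = c • onY g

/-- Smooth convex sets: the functionals supporting it at a point are nonnegative multiples of one of
them. -/
def Smooth {V : Type*} [NormedAddCommGroup V] [NormedSpace ℝ V] (S : Set V) : Prop :=
  ∀ x ∈ S, ∀ f g : V →L[ℝ] ℝ, Supports S x f → Supports S x g → g ≠ 0 →
    ∃ c : ℝ, 0 ≤ c ∧ f = c • g

/-- Directions for all functionals. -/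
theorem simplex (m : ℕ) : ∃ (D : Finset (EuclideanSpace ℝ (Fin m))) (κ : ℝ), D.card ≤ m + 1 ∧
    0 < κ ∧ ∀ q : EuclideanSpace ℝ (Fin m) →L[ℝ] ℝ, ∃ v ∈ D, q v ≤ -(κ * ‖q‖) := by
  obtain ⟨D, κ, hD, hκ, h⟩ := dirs (L := Metric.closedBall (0 : EuclideanSpace ℝ (Fin m)) 1)
    (isCompact_closedBall _ _) (Pool.Agent.H765R3.Had.ball_cover m)
  refine ⟨D, κ, hD, hκ, fun q => ?_⟩
  obtain ⟨w, hw, hmax⟩ := (isCompact_closedBall (0 : EuclideanSpace ℝ (Fin m)) 1).exists_isMaxOn
    ⟨0, by simp⟩ q.continuous.continuousOn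
  obtain ⟨v, hv, h1⟩ := h w hw
  exact ⟨v, hv, h1 q fun z hz => hmax hz⟩

theorem smooth_cover {m : ℕ} {K : Set (X × EuclideanSpace ℝ (Fin m))} (hK : Convex ℝ K)
    (hKc : IsCompact K) (hKi : (interior K).Nonempty) (hs : SmoothAlong K) {N : ℕ}
    (hN : ∃ T : Finset X, T.card ≤ N ∧
      Prod.fst '' K ⊆ ⋃ t ∈ T, (fun x => t + x) '' interior (Prod.fst '' K)) :
    ∃ T : Finset (X × EuclideanSpace ℝ (Fin m)), T.card ≤ N * (m + 1) ∧
      K ⊆ ⋃ t ∈ T, (fun x => t + x) '' interior K := by
  obtain ⟨D, κ, hD, hκ, h⟩ := simplex m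
  obtain ⟨T, hT, hT'⟩ := fibration hK hKc hKi D hκ (fun x hx => by
    by_cases hex : ∃ g : X × EuclideanSpace ℝ (Fin m) →L[ℝ] ℝ, Supports K x g ∧ onY g ≠ 0
    · obtain ⟨g, hg, hg0⟩ := hex
      obtain ⟨v, hv, h1⟩ := h (onY g)
      refine ⟨v, hv, fun f hf => ?_⟩
      obtain ⟨c, hc, h2⟩ := hs x hx f g hf hg hg0
      rw [h2, norm_smul, Real.norm_eq_abs, abs_of_nonneg hc, smul_apply, smul_eq_mul]
      nlinarith
    · push Not at hex
      obtain ⟨v, hv, -⟩ := h 0
      refine ⟨v, hv, fun f hf => ?_⟩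
      rw [hex f hf]
      simp) hN
  exact ⟨T, hT.trans (Nat.mul_le_mul_left _ hD), hT'⟩

/-- A smooth body intersected with a cylinder is smooth along the generators. -/
theorem inter_cylinder {M : Set (X × Y)} {C : Set X} (hM : Convex ℝ M) (hs : Smooth M)
    (hC : Convex ℝ C) (hi : (interior (M ∩ Prod.fst ⁻¹' C)).Nonempty) :
    SmoothAlong (M ∩ Prod.fst ⁻¹' C) := by
  intro x hx f g hf hg hg0
  obtain ⟨z, hz⟩ := hi
  have hzM : z ∈ interior M := interior_mono inter_subset_left hz
  have hzC : z.1 ∈ C := (interior_subset hz).2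
  -- main claim
  have claim : ∀ n : X × Y →L[ℝ] ℝ, (Supports M x n ∧ n ≠ 0 ∨ n = 0 ∧
      ∀ h : X × Y →L[ℝ] ℝ, h ≠ 0 → ¬ Supports M x h) →
      ∀ f : X × Y →L[ℝ] ℝ, Supports (M ∩ Prod.fst ⁻¹' C) x f →
      ∀ w, onY n w ≤ 0 → onY f w ≤ 0 := by
    intro n hn f hf w hw
    have step : ∀ δ : ℝ, 0 < δ → onY f w ≤ δ * (f x - f z) := by
      intro δ hδ
      set d : X × Y := (0, w) + δ • (z - x) with hd
      obtain ⟨ε, hε, h1⟩ := enter (d := d) hM ⟨z, hzM⟩ hx.1 (by
        intro h hh0 hh
        rcases hn with ⟨hn, hn0⟩ | ⟨-, hno⟩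
        · obtain ⟨c, hc, hcn⟩ := hs x hx.1 h n hh hn hn0
          have hc0 : 0 < c := by
            rcases hc.eq_or_lt with h0 | h0
            · exact absurd (by rw [hcn, ← h0, zero_smul]) hh0
            · exact h0
          rw [hcn, smul_apply, smul_eq_mul]
          refine mul_neg_of_pos_of_neg hc0 ?_
          have e1 : n (0, w) = onY n w := by rw [split]; simp
          rw [hd, map_add, map_smul, map_sub, e1, smul_eq_mul]
          have := interior_lt hn0 hn hzM
          nlinarith
        · exact absurd hh (hno h hh0))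
      set ε' : ℝ := min ε (1 / δ) with hε'
      have hε'0 : 0 < ε' := lt_min hε (by positivity)
      have h2 : x + ε' • d ∈ M := by
        have hle : ε' ≤ ε := min_le_left _ _
        have h3 := hM hx.1 (interior_subset h1) (a := 1 - ε' / ε) (b := ε' / ε)
          (by rw [sub_nonneg, div_le_one hε]; exact hle) (by positivity) (by ring)
        have e : (1 - ε' / ε) • x + (ε' / ε) • (x + ε • d) = x + ε' • d := by
          rw [smul_add, smul_smul, div_mul_cancel₀ _ hε.ne', sub_smul, one_smul]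
          abel
        rwa [e] at h3
      have h3 : (x + ε' • d).1 ∈ C := by
        have hle : ε' * δ ≤ 1 := by
          have := min_le_right ε (1 / δ)
          rw [← hε'] at this
          rwa [le_div_iff₀ hδ] at this
        have h4 := hC hx.2 hzC (a := 1 - ε' * δ) (b := ε' * δ) (by linarith) (by positivity)
          (by ring)
        have e : (1 - ε' * δ) • x.1 + (ε' * δ) • z.1 = (x + ε' • d).1 := by
          simp only [hd, Prod.fst_add, Prod.smul_fst, Prod.fst_sub, zero_add, smul_smul, smul_sub,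
            sub_smul, one_smul]
          abel
        rwa [e] at h4
      have h5 := hf _ ⟨h2, h3⟩
      have e1 : f (0, w) = onY f w := by rw [split]; simp
      rw [map_add, map_smul, hd, map_add, map_smul, map_sub, e1] at h5
      simp only [smul_eq_mul] at h5
      have h6 : ε' * (onY f w + δ * (f z - f x)) ≤ 0 := by linarith
      have h7 : onY f w + δ * (f z - f x) ≤ 0 := by
        by_contra hcon
        push Not at hcon
        have := mul_pos hε'0 hcon
        linarith
      linarith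
    have hnn : 0 ≤ f x - f z := sub_nonneg.2 (hf z (interior_subset hz))
    by_contra hcon
    push Not at hcon
    have h8 := step (onY f w / (2 * (f x - f z + 1))) (by positivity)
    have h9 : onY f w / (2 * (f x - f z + 1)) * (f x - f z) ≤ onY f w / 2 := by
      rw [div_mul_eq_mul_div, div_le_div_iff₀ (by positivity) (by norm_num)]
      nlinarith
    linarith
  obtain ⟨n, hn⟩ : ∃ n : X × Y →L[ℝ] ℝ, (Supports M x n ∧ n ≠ 0 ∨ n = 0 ∧
      ∀ h : X × Y →L[ℝ] ℝ, h ≠ 0 → ¬ Supports M x h) := by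
    by_cases hex : ∃ n : X × Y →L[ℝ] ℝ, Supports M x n ∧ n ≠ 0
    · obtain ⟨n, hn⟩ := hex
      exact ⟨n, Or.inl hn⟩
    · push Not at hex
      exact ⟨0, Or.inr ⟨rfl, fun h h0 hh => h0 (hex h hh)⟩⟩
  obtain ⟨a, ha, hfa⟩ := ray (claim n hn f hf)
  obtain ⟨b, hb, hgb⟩ := ray (claim n hn g hg)
  have hb0 : 0 < b := by
    rcases hb.eq_or_lt with h0 | h0
    · exact absurd (by rw [hgb, ← h0, zero_smul]) hg0
    · exact h0
  refine ⟨a / b, by positivity, ?_⟩
  rw [hfa, hgb, smul_smul, div_mul_cancel₀ _ hb0.ne']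

/-- Bodies all of whose fibres have a smooth summand. -/
theorem smooth_summands {K : Set (X × Y)}
    (h : ∀ t ∈ Prod.fst '' K, ∃ S C : Set Y, Smooth S ∧ {y | (t, y) ∈ K} = S + C) :
    SmoothAlong K := by
  intro x hx f g hf hg hg0
  obtain ⟨S, C, hS, hSC⟩ := h x.1 ⟨x, hx, rfl⟩
  have hx2 : x.2 ∈ S + C := by rw [← hSC]; exact hx
  obtain ⟨s, hs, c, hc, hsc⟩ := hx2
  have key : ∀ f : X × Y →L[ℝ] ℝ, Supports K x f → Supports S s (onY f) := by
    intro f hf s' hs'
    have h1 : (x.1, s' + c) ∈ K := by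
      have : s' + c ∈ {y | (x.1, y) ∈ K} := by rw [hSC]; exact ⟨s', hs', c, hc, rfl⟩
      exact this
    have h2 := hf _ h1
    have e2 : f x = onX f x.1 + onY f x.2 := split f x.1 x.2
    rw [split, e2, ← hsc] at h2
    simp only [map_add] at h2
    linarith
  exact hS s hs _ _ (key f hf) (key g hg) hg0

/-- Bodies all of whose fibres have a summand homothetic to `L`. -/
theorem homothetic_summands {K : Set (X × Y)} (hK : Convex ℝ K) (hKc : IsCompact K)
    (hKi : (interior K).Nonempty) {L : Set Y} (hL : IsCompact L)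
    (h : ∀ t ∈ Prod.fst '' K, ∃ (r : ℝ) (C : Set Y), 0 < r ∧ {y | (t, y) ∈ K} = r • L + C)
    {N N' : ℕ}
    (hN : ∃ T : Finset X, T.card ≤ N ∧
      Prod.fst '' K ⊆ ⋃ t ∈ T, (fun x => t + x) '' interior (Prod.fst '' K))
    (hN' : ∃ T : Finset Y, T.card ≤ N' ∧ L ⊆ ⋃ t ∈ T, (fun x => t + x) '' interior L) :
    ∃ T : Finset (X × Y), T.card ≤ N * N' ∧ K ⊆ ⋃ t ∈ T, (fun x => t + x) '' interior K := by
  obtain ⟨D, κ, hD, hκ, hdir⟩ := dirs hL hN'
  obtain ⟨T, hT, hT'⟩ := fibration hK hKc hKi D hκ (fun x hx => by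
    obtain ⟨r, C, hr, hSC⟩ := h x.1 ⟨x, hx, rfl⟩
    have hx2 : x.2 ∈ r • L + C := by rw [← hSC]; exact hx
    obtain ⟨s, hs, c, hc, hsc⟩ := hx2
    obtain ⟨l, hl, rfl⟩ := hs
    obtain ⟨v, hv, h1⟩ := hdir l hl
    refine ⟨v, hv, fun f hf => h1 _ fun l' hl' => ?_⟩
    have h1 : (x.1, r • l' + c) ∈ K := by
      have : r • l' + c ∈ {y | (x.1, y) ∈ K} := by
        rw [hSC]; exact ⟨r • l', ⟨l', hl', rfl⟩, c, hc, rfl⟩
      exact this
    have h2 := hf _ h1
    have e2 : f x = onX f x.1 + onY f x.2 := split f x.1 x.2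
    rw [split, e2, ← hsc] at h2
    simp only [map_add, map_smul, smul_eq_mul] at h2
    have h3 : r * onY f l' ≤ r * onY f l := by linarith
    exact le_of_mul_le_mul_left h3 hr) hN
  exact ⟨T, hT.trans (Nat.mul_le_mul_left _ hD), hT'⟩

end fibration

end Pool.Agent.U122.Fib
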