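import Pool.Agent.U122.Fib

set_option autoImplicit false

namespace Pool.Agent.U122.Rot

open Set Pool.Agent.U122.Fib

section blocks

variable {X : Type*} [NormedAddCommGroup X] [NormedSpace ℝ X]
  {r : ℕ} {Y : Fin r → Type*} [∀ j, NormedAddCommGroup (Y j)] [∀ j, NormedSpace ℝ (Y j)]

/-- The restriction of a functional to the block `j`. -/
noncomputable def blk (f : X × (∀ j, Y j) →L[ℝ] ℝ) (j : Fin r) : Y j →L[ℝ] ℝ :=
  (onY f).comp (ContinuousLinearMap.single ℝ Y j)

theorem blk_apply (f : X × (∀ j, Y j) →L[ℝ] ℝ) (j : Fin r) (v : Y j) :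
    blk f j v = onY f (Pi.single j v) := rfl

theorem split' (f : X × (∀ j, Y j) →L[ℝ] ℝ) (x : X) (y : ∀ j, Y j) :
    f (x, y) = onX f x + ∑ j, blk f j (y j) := by
  rw [split]
  congr 1
  have h : y = ∑ j, Pi.single j (y j) := (Finset.univ_sum_single y).symm
  conv_lhs => rw [h]
  rw [map_sum]
  rfl

/-- **Block theorem.** -/
theorem blocks {K : Set (X × (∀ j, Y j))} (hK : Convex ℝ K) (hKc : IsCompact K)
    (hz : ∀ x ∈ K, (x.1, (0 : ∀ j, Y j)) ∈ K) (hi : ∃ t₀, (t₀, (0 : ∀ j, Y j)) ∈ interior K)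
    (V : ∀ j, Finset (Y j)) {κ : ℝ} (hκ : 0 < κ)
    (hV : ∀ x ∈ K, ∀ j, x.2 j ≠ 0 → ∃ v ∈ V j, ∀ f : X × (∀ j, Y j) →L[ℝ] ℝ, Supports K x f →
      blk f j v ≤ -(κ * ‖blk f j‖))
    {N : ℕ} (hN : ∃ T : Finset X, T.card ≤ N ∧
      {t | (t, (0 : ∀ j, Y j)) ∈ K} ⊆ ⋃ t ∈ T, (fun x => t + x) '' interior {t | (t, (0 : ∀ j, Y j)) ∈ K}) :
    ∃ T : Finset (X × (∀ j, Y j)), T.card ≤ N * ∏ j, ((V j).card + 1) ∧
      K ⊆ ⋃ t ∈ T, (fun x => t + x) '' interior K := by
  classical
  obtain ⟨T, hT, hcov⟩ := hN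
  obtain ⟨t₀, ht₀⟩ := hi
  obtain ⟨D, hD⟩ := hKc.isBounded.subset_closedBall (0 : X × (∀ j, Y j))
  set R : ℝ := (|D| + 1) / κ with hR
  have hRpos : 0 < R := by positivity
  have hDb : ∀ z ∈ K, ∀ j, ‖z.2 j‖ ≤ |D| := by
    intro z hz j
    have h1 := hD hz
    rw [Metric.mem_closedBall, dist_zero_right] at h1
    exact (norm_le_pi_norm z.2 j).trans ((norm_snd_le z).trans (h1.trans (le_abs_self D)))
  have hKi : (interior K).Nonempty := ⟨_, ht₀⟩
  obtain ⟨S, hS, hS'⟩ := Pool.Agent.H765R3.Had.cover_of_dirs hK hKc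
    ((T ×ˢ Fintype.piFinset fun j => insert 0 (V j)).image fun p => (p.1, -(R • p.2))) (by
      intro x hx
      have hxB : x.1 ∈ {t | (t, (0 : ∀ j, Y j)) ∈ K} := hz x hx
      obtain ⟨b, hb, hb'⟩ := Set.mem_iUnion₂.1 (hcov hxB)
      obtain ⟨t, ht, htx⟩ := hb'
      have ht' : t = x.1 - b := by rw [← htx]; simp
      have hch : ∀ j, ∃ v ∈ insert (0 : Y j) (V j), (x.2 j = 0 → v = 0) ∧
          (x.2 j ≠ 0 → ∀ f : X × (∀ j, Y j) →L[ℝ] ℝ, Supports K x f →
            blk f j v ≤ -(κ * ‖blk f j‖)) := by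
        intro j
        by_cases h0 : x.2 j = 0
        · exact ⟨0, Finset.mem_insert_self _ _, fun _ => rfl, fun h => absurd h0 h⟩
        · obtain ⟨v, hv, h1⟩ := hV x hx j h0
          exact ⟨v, Finset.mem_insert_of_mem hv, fun h => absurd h h0, fun _ => h1⟩
      choose v hv hv0 hv1 using hch
      refine ⟨(b, -(R • v)), Finset.mem_image.2 ⟨(b, v), Finset.mem_product.2 ⟨hb, ?_⟩, rfl⟩, ?_⟩
      · exact Fintype.mem_piFinset.2 hv
      obtain ⟨ε, hε, h1⟩ := enter (d := (-b, R • v)) hK hKi hx (by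
        intro f hf hsup
        rw [split', map_neg]
        have e2 : f x = onX f x.1 + ∑ j, blk f j (x.2 j) := split' f x.1 x.2
        have htK : (t, (0 : ∀ j, Y j)) ∈ K :=
          (interior_subset ht : t ∈ {t | (t, (0 : ∀ j, Y j)) ∈ K})
        have h2 := hsup _ htK
        rw [split', e2, ht', map_sub] at h2
        simp only [Pi.zero_apply, map_zero, Finset.sum_const_zero, add_zero] at h2
        have h3 : ∑ j, blk f j (x.2 j) + R * ∑ j, blk f j (v j) ≤
            -∑ j, (if x.2 j = 0 then 0 else ‖blk f j‖) := by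
          rw [Finset.mul_sum, ← Finset.sum_add_distrib, ← Finset.sum_neg_distrib]
          refine Finset.sum_le_sum fun j _ => ?_
          split_ifs with h0
          · rw [h0, hv0 j h0]; simp
          · have h4 := hv1 j h0 f hsup
            have h5 : blk f j (x.2 j) ≤ ‖blk f j‖ * |D| := by
              refine (le_abs_self _).trans ?_
              rw [← Real.norm_eq_abs]
              refine ((blk f j).le_opNorm _).trans ?_
              exact mul_le_mul_of_nonneg_left (hDb x hx j) (norm_nonneg _)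
            have h6 : R * blk f j (v j) ≤ R * -(κ * ‖blk f j‖) :=
              mul_le_mul_of_nonneg_left h4 hRpos.le
            have h7 : R * -(κ * ‖blk f j‖) = -((|D| + 1) * ‖blk f j‖) := by
              rw [hR]; field_simp
            linarith
        have e3 : ∑ j, blk f j ((R • v) j) = R * ∑ j, blk f j (v j) := by
          rw [Finset.mul_sum]
          exact Finset.sum_congr rfl fun j _ => by
            rw [Pi.smul_apply, map_smul, smul_eq_mul]
        rw [e3]
        by_cases hall : ∀ j, x.2 j ≠ 0 → blk f j = 0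
        · have hsum0 : ∑ j, blk f j (x.2 j) = 0 := by
            refine Finset.sum_eq_zero fun j _ => ?_
            by_cases h0 : x.2 j = 0
            · rw [h0, map_zero]
            · rw [hall j h0]; simp
          have hsumv : ∑ j, blk f j (v j) = 0 := by
            refine Finset.sum_eq_zero fun j _ => ?_
            by_cases h0 : x.2 j = 0
            · rw [hv0 j h0, map_zero]
            · rw [hall j h0]; simp
          rw [hsumv, mul_zero, add_zero]
          have hp0 : onX f ≠ 0 := by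
            intro h0
            have h5 := interior_lt hf hsup ht₀
            rw [split', e2, hsum0, h0] at h5
            simp at h5
          have hp : Supports {t | (t, (0 : ∀ j, Y j)) ∈ K} x.1 (onX f) := by
            intro z hz'
            have h6 := hsup _ hz'
            rw [split', e2, hsum0] at h6
            simpa using h6
          have h7 := interior_lt hp0 hp ht
          rw [ht', map_sub] at h7
          linarith
        · push Not at hall
          obtain ⟨j₀, hj₀, hj₀'⟩ := hall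
          have h8 : 0 < ∑ j, (if x.2 j = 0 then 0 else ‖blk f j‖) := by
            refine Finset.sum_pos' (fun j _ => ?_) ⟨j₀, Finset.mem_univ _, ?_⟩
            · split_ifs
              · exact le_rfl
              · exact norm_nonneg _
            · rw [if_neg hj₀]
              exact norm_pos_iff.2 hj₀'
          linarith)
      refine ⟨ε, hε, ?_⟩
      have e : x - ε • (b, -(R • v)) = x + ε • (-b, R • v) := by
        ext <;> simp [sub_eq_add_neg]
      rw [e]
      exact h1)
  refine ⟨S, hS.trans (Finset.card_image_le.trans ?_), hS'⟩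
  rw [Finset.card_product, Fintype.card_piFinset]
  exact Nat.mul_le_mul hT (Finset.prod_le_prod' fun j _ => Finset.card_insert_le _ _)

end blocks

section circle

open Complex

/-- Rounding of angles. -/
theorem round_angle (N : ℕ) (hN : 0 < N) (β : ℝ) :
    ∃ k : ℤ, |β + 2 * Real.pi * k / N| ≤ Real.pi / N := by
  refine ⟨-round (β * N / (2 * Real.pi)), ?_⟩
  have hN' : (0 : ℝ) < N := by exact_mod_cast hN
  have hpi := Real.pi_pos
  have h := abs_sub_round (β * N / (2 * Real.pi))
  have e : β + 2 * Real.pi * ((-round (β * N / (2 * Real.pi)) : ℤ) : ℝ) / N =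
      (β * N / (2 * Real.pi) - round (β * N / (2 * Real.pi))) * (2 * Real.pi / N) := by
    push_cast
    field_simp
    ring
  rw [e, abs_mul, abs_of_pos (show 0 < 2 * Real.pi / N by positivity)]
  calc |β * N / (2 * Real.pi) - round (β * N / (2 * Real.pi))| * (2 * Real.pi / N)
      ≤ 1 / 2 * (2 * Real.pi / N) := by gcongr
    _ = Real.pi / N := by ring

/-- The `N`-th roots of unity. -/
noncomputable def roots (N : ℕ) : Finset ℂ :=
  (Finset.range N).image fun i : ℕ => Complex.exp ((2 * Real.pi * i / N : ℝ) * I)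

theorem mem_roots (N : ℕ) (hN : 0 < N) (k : ℤ) :
    Complex.exp ((2 * Real.pi * k / N : ℝ) * I) ∈ roots N := by
  have hN' : (N : ℤ) ≠ 0 := by exact_mod_cast hN.ne'
  refine Finset.mem_image.2 ⟨(k % N).toNat, ?_, ?_⟩
  · rw [Finset.mem_range]
    have h1 := Int.emod_lt_of_pos k (show (0 : ℤ) < N by exact_mod_cast hN)
    have h2 := Int.emod_nonneg k hN'
    omega
  · have h2 := Int.emod_nonneg k hN'
    have h3 : (((k % N).toNat : ℕ) : ℝ) = ((k % N : ℤ) : ℝ) := by
      have : (((k % N).toNat : ℕ) : ℤ) = k % N := Int.toNat_of_nonneg h2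
      exact_mod_cast this
    rw [h3, Complex.exp_eq_exp_iff_exists_int]
    refine ⟨-(k / N), ?_⟩
    have h4 : ((k % N : ℤ) : ℝ) = k - N * ((k / N : ℤ) : ℝ) := by
      have := Int.emod_add_mul_ediv k N
      have h5 : ((k % N : ℤ) : ℝ) + N * ((k / N : ℤ) : ℝ) = k := by exact_mod_cast this
      linarith
    have hNr : (N : ℝ) ≠ 0 := by exact_mod_cast hN.ne'
    have e : (2 * Real.pi * ((k % N : ℤ) : ℝ) / N) =
        (2 * Real.pi * k / N) + (-(k / N : ℤ) : ℝ) * (2 * Real.pi) := by
      rw [h4]; field_simp; ring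
    rw [e]
    push_cast
    ring

theorem card_roots (N : ℕ) : (roots N).card ≤ N :=
  Finset.card_image_le.trans (by simp)

/-- Real functionals on the complex numbers. -/
theorem fun_complex (q : ℂ →L[ℝ] ℝ) : ∃ (ρ γ : ℝ), 0 ≤ ρ ∧ ‖q‖ ≤ ρ ∧
    ∀ (s θ : ℝ), q (s * Complex.exp (θ * I)) = ρ * s * Real.cos (θ - γ) := by
  set c : ℂ := (q 1 : ℂ) + (q I : ℂ) * I with hc
  refine ⟨‖c‖, Complex.arg c, norm_nonneg _, ?_, ?_⟩
  · refine ContinuousLinearMap.opNorm_le_bound q (norm_nonneg _) fun z => ?_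
    have hz : q z = (starRingEnd ℂ c * z).re := by
      have : z = z.re • (1 : ℂ) + z.im • I := by
        simp [Complex.re_add_im]
      conv_lhs => rw [this]
      rw [map_add, map_smul, map_smul]
      simp [hc]
      ring
    rw [hz, Real.norm_eq_abs]
    refine (Complex.abs_re_le_norm _).trans ?_
    rw [norm_mul, Complex.norm_conj]
  · intro s θ
    have hz : ∀ z : ℂ, q z = (starRingEnd ℂ c * z).re := by
      intro z
      have : z = z.re • (1 : ℂ) + z.im • I := by
        simp [Complex.re_add_im]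
      conv_lhs => rw [this]
      rw [map_add, map_smul, map_smul]
      simp [hc]
      ring
    rw [hz]
    have hcp : c = ‖c‖ * Complex.exp (Complex.arg c * I) := (Complex.norm_mul_exp_arg_mul_I c).symm
    conv_lhs => rw [hcp]
    rw [map_mul, Complex.conj_ofReal, ← Complex.exp_conj, map_mul, Complex.conj_I,
      Complex.conj_ofReal]
    have e : (‖c‖ : ℂ) * Complex.exp (Complex.arg c * -I) * (s * Complex.exp (θ * I)) =
        ((‖c‖ * s : ℝ) : ℂ) * Complex.exp (((θ - Complex.arg c : ℝ) : ℂ) * I) := by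
      have : Complex.exp (((θ - Complex.arg c : ℝ) : ℂ) * I) =
          Complex.exp (Complex.arg c * -I) * Complex.exp (θ * I) := by
        rw [← Complex.exp_add]
        congr 1
        push_cast
        ring
      rw [this]
      push_cast
      ring
    rw [e, Complex.re_ofReal_mul, Complex.exp_ofReal_mul_I_re]

/-- Three directions for the rotations of order at least seven, etc. -/
theorem dir (p N : ℕ) (hp : 0 < p) (hN : 0 < N) (h : 2 * (p + N) < p * N) {y : ℂ} (hy : y ≠ 0) :
    ∃ v ∈ roots N, ∀ q : ℂ →L[ℝ] ℝ,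
      (∀ k : ℤ, q (Complex.exp ((2 * Real.pi * k / p : ℝ) * I) * y) ≤ q y) →
      q v ≤ -(Real.cos (Real.pi / N + Real.pi / p) * ‖q‖) := by
  set s : ℝ := ‖y‖ with hs
  set θ : ℝ := Complex.arg y with hθ
  have hs0 : 0 < s := norm_pos_iff.2 hy
  have hyp : y = s * Complex.exp (θ * I) := (Complex.norm_mul_exp_arg_mul_I y).symm
  have hpi := Real.pi_pos
  have hp' : (0 : ℝ) < p := by exact_mod_cast hp
  have hN' : (0 : ℝ) < N := by exact_mod_cast hN
  have hsum : Real.pi / N + Real.pi / p < Real.pi / 2 := by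
    have h1 : 2 * ((p : ℝ) + N) < p * N := by exact_mod_cast h
    rw [div_add_div _ _ hN'.ne' hp'.ne', div_lt_div_iff₀ (by positivity) (by norm_num)]
    nlinarith
  obtain ⟨i, hi⟩ := round_angle N hN (-(θ + Real.pi))
  refine ⟨_, mem_roots N hN i, fun q hq => ?_⟩
  obtain ⟨ρ, γ, hρ, hqρ, hform⟩ := fun_complex q
  have hcos0 : 0 < Real.cos (Real.pi / N + Real.pi / p) :=
    Real.cos_pos_of_mem_Ioo ⟨by have : 0 < Real.pi / N + Real.pi / p := by positivity
                                linarith, hsum⟩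
  rcases hρ.eq_or_lt with hρ0 | hρ0
  · have hq0 : ‖q‖ = 0 := le_antisymm (by rw [hρ0]; exact hqρ) (norm_nonneg _)
    have : q = 0 := norm_eq_zero.1 hq0
    rw [this]; simp
  obtain ⟨k, hk⟩ := round_angle p hp (θ - γ)
  have h1 : Real.cos (Real.pi / p) ≤ Real.cos (θ - γ) := by
    have h2 := hq k
    have e1 : Complex.exp ((2 * Real.pi * k / p : ℝ) * I) * y =
        (s : ℂ) * Complex.exp (((θ + 2 * Real.pi * k / p : ℝ) : ℂ) * I) := by
      rw [hyp]
      have : Complex.exp (((θ + 2 * Real.pi * k / p : ℝ) : ℂ) * I) =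
          Complex.exp ((2 * Real.pi * k / p : ℝ) * I) * Complex.exp (θ * I) := by
        rw [← Complex.exp_add]
        congr 1
        push_cast
        ring
      rw [this]
      ring
    rw [e1, hform, hyp, hform] at h2
    have h3 : Real.cos (θ + 2 * Real.pi * k / p - γ) ≤ Real.cos (θ - γ) :=
      le_of_mul_le_mul_left h2 (by positivity)
    refine le_trans ?_ h3
    rw [← Real.cos_abs (θ + 2 * Real.pi * k / p - γ)]
    refine Real.cos_le_cos_of_nonneg_of_le_pi (abs_nonneg _) ?_ ?_
    · rw [div_le_iff₀ hp']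
      have : (1 : ℝ) ≤ p := by exact_mod_cast hp
      nlinarith
    · have e2 : θ + 2 * Real.pi * k / p - γ = θ - γ + 2 * Real.pi * k / p := by ring
      rw [e2]; exact hk
  -- the reduced angle
  set δ : ℝ := toIocMod Real.two_pi_pos (-Real.pi) (θ - γ) with hδ
  obtain ⟨l, hl⟩ : ∃ l : ℤ, δ = θ - γ - l * (2 * Real.pi) := by
    refine ⟨toIocDiv Real.two_pi_pos (-Real.pi) (θ - γ), ?_⟩
    have := self_sub_toIocDiv_zsmul Real.two_pi_pos (-Real.pi) (θ - γ)
    rw [hδ, ← this, zsmul_eq_mul]
  have hδc : Real.cos δ = Real.cos (θ - γ) := by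
    rw [hl]; exact Real.cos_sub_int_mul_two_pi _ _
  have hδm := toIocMod_mem_Ioc Real.two_pi_pos (-Real.pi) (θ - γ)
  rw [← hδ] at hδm
  have hδabs : |δ| ≤ Real.pi / p := by
    by_contra hcon
    push Not at hcon
    have h4 : |δ| ≤ Real.pi := by
      rw [abs_le]
      exact ⟨hδm.1.le, by have := hδm.2; linarith⟩
    have h5 := Real.cos_lt_cos_of_nonneg_of_le_pi (by positivity) h4 hcon
    rw [Real.cos_abs, hδc] at h5
    linarith
  have h6 : q (Complex.exp ((2 * Real.pi * i / N : ℝ) * I)) =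
      ρ * Real.cos (2 * Real.pi * i / N - γ) := by
    have := hform 1 (2 * Real.pi * i / N)
    simp only [Complex.ofReal_one, one_mul, mul_one] at this
    exact this
  rw [h6]
  have h7 : Real.cos (2 * Real.pi * i / N - γ) =
      -Real.cos ((-(θ + Real.pi) + 2 * Real.pi * i / N) + δ) := by
    rw [hl]
    have e3 : 2 * Real.pi * i / N - γ = ((-(θ + Real.pi) + 2 * Real.pi * i / N) +
        (θ - γ - l * (2 * Real.pi))) + Real.pi + l * (2 * Real.pi) := by ring
    rw [e3, Real.cos_add_int_mul_two_pi, Real.cos_add_pi]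
  rw [h7]
  have h8 : Real.cos (Real.pi / N + Real.pi / p) ≤
      Real.cos ((-(θ + Real.pi) + 2 * Real.pi * i / N) + δ) := by
    rw [← Real.cos_abs ((-(θ + Real.pi) + 2 * Real.pi * i / N) + δ)]
    refine Real.cos_le_cos_of_nonneg_of_le_pi (abs_nonneg _) (by linarith) ?_
    refine (abs_add_le _ _).trans ?_
    exact add_le_add hi hδabs
  have h9 : Real.cos (Real.pi / N + Real.pi / p) * ‖q‖ ≤
      ρ * Real.cos ((-(θ + Real.pi) + 2 * Real.pi * i / N) + δ) := by
    calc Real.cos (Real.pi / N + Real.pi / p) * ‖q‖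
        ≤ Real.cos (Real.pi / N + Real.pi / p) * ρ := by gcongr
      _ ≤ Real.cos ((-(θ + Real.pi) + 2 * Real.pi * i / N) + δ) * ρ := by gcongr
      _ = _ := by ring
  linarith

end circle

end Pool.Agent.U122.Rot
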