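import Pool.Agent.U122.Rot

set_option autoImplicit false

namespace Pool.Agent.U122.Rot

open Set Pool.Agent.U122.Fib Complex

variable {X : Type*} [NormedAddCommGroup X] [NormedSpace ℝ X] {r : ℕ}

/-- The rotation by `2 π / p j` in the block `j`. -/
noncomputable def om (p : ℕ) : ℂ := Complex.exp ((2 * Real.pi / p : ℝ) * I)

theorem om_pow (p : ℕ) (m : ℕ) : om p ^ m = Complex.exp ((2 * Real.pi * m / p : ℝ) * I) := by
  rw [om, ← Complex.exp_nat_mul]
  congr 1
  push_cast
  ring

/-- Invariance under the rotation in the block `j`. -/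
def Inv (S : Set (X × (Fin r → ℂ))) (j : Fin r) (c : ℂ) : Prop :=
  ∀ x ∈ S, (x.1, Function.update x.2 j (c * x.2 j)) ∈ S

theorem Inv.pow {S : Set (X × (Fin r → ℂ))} {j : Fin r} {c : ℂ} (h : Inv S j c) (m : ℕ)
    {x : X × (Fin r → ℂ)} (hx : x ∈ S) : (x.1, Function.update x.2 j (c ^ m * x.2 j)) ∈ S := by
  induction m with
  | zero => simpa using hx
  | succ m ih =>
    have h1 := h _ ih
    simp only [Function.update_self, Function.update_idem] at h1
    convert h1 using 3
    ring

theorem zero_one {S : Set (X × (Fin r → ℂ))} (hS : Convex ℝ S) {j : Fin r} {p : ℕ} (hp : 2 ≤ p)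
    (h : Inv S j (om p)) {x : X × (Fin r → ℂ)} (hx : x ∈ S) :
    (x.1, Function.update x.2 j 0) ∈ S := by
  have hp0 : (p : ℝ) ≠ 0 := by
    have : 0 < p := by omega
    exact_mod_cast this.ne'
  have hprim : IsPrimitiveRoot (om p) p := by
    have h1 := Complex.isPrimitiveRoot_exp p (by omega)
    have e : om p = Complex.exp (2 * Real.pi * I / p) := by
      rw [om]; congr 1; push_cast; ring
    rw [e]; exact h1
  have hsum : ∑ i ∈ Finset.range p, om p ^ i = 0 := hprim.geom_sum_eq_zero (by omega)
  have h1 := hS.sum_mem (t := Finset.range p) (w := fun _ => (p : ℝ)⁻¹)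
    (z := fun m => (x.1, Function.update x.2 j (om p ^ m * x.2 j)))
    (fun _ _ => by positivity) (by simp [hp0]) (fun m _ => h.pow m hx)
  convert h1 using 1
  rw [← Finset.smul_sum]
  refine Prod.ext ?_ ?_
  · rw [Prod.smul_fst, Prod.fst_sum]
    simp only [Finset.sum_const, Finset.card_range]
    rw [← Nat.cast_smul_eq_nsmul ℝ, smul_smul, inv_mul_cancel₀ hp0, one_smul]
  · rw [Prod.smul_snd, Prod.snd_sum]
    funext i
    rw [Pi.smul_apply, Finset.sum_apply]
    by_cases hi : i = j
    · subst hi
      simp only [Function.update_self]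
      rw [← Finset.sum_mul, hsum, zero_mul, smul_zero]
    · simp only [Function.update_of_ne hi, Finset.sum_const, Finset.card_range]
      rw [← Nat.cast_smul_eq_nsmul ℝ, smul_smul, inv_mul_cancel₀ hp0, one_smul]

theorem zero_all {S : Set (X × (Fin r → ℂ))} (hS : Convex ℝ S) {p : Fin r → ℕ}
    (hp : ∀ j, 2 ≤ p j) (h : ∀ j, Inv S j (om (p j))) {x : X × (Fin r → ℂ)} (hx : x ∈ S) :
    (x.1, (0 : Fin r → ℂ)) ∈ S := by
  classical
  have key : ∀ s : Finset (Fin r), (x.1, fun i => if i ∈ s then 0 else x.2 i) ∈ S := by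
    intro s
    induction s using Finset.induction_on with
    | empty => simpa using hx
    | insert j s hj ih =>
      have h1 := zero_one hS (hp j) (h j) ih
      convert h1 using 2
      funext i
      by_cases hi : i = j
      · subst hi; simp
      · simp [hi]
  have h2 := key Finset.univ
  convert h2 using 2
  funext i
  simp

theorem inv_interior {S : Set (X × (Fin r → ℂ))} {j : Fin r} {c : ℂ} (hc : c ≠ 0)
    (h : Inv S j c) : Inv (interior S) j c := by
  intro x hx
  set g : X × (Fin r → ℂ) → X × (Fin r → ℂ) :=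
    fun z => (z.1, Function.update z.2 j (c⁻¹ * z.2 j)) with hg
  have hgc : Continuous g := by
    refine continuous_fst.prodMk ?_
    refine continuous_pi fun i => ?_
    by_cases hi : i = j
    · subst hi
      simp only [Function.update_self]
      fun_prop
    · simp only [Function.update_of_ne hi]
      fun_prop
  have hopen : IsOpen (g ⁻¹' interior S) := isOpen_interior.preimage hgc
  refine (interior_maximal (s := S) ?_ hopen) ?_
  · intro z hz
    have h1 := h _ (interior_subset hz)
    simp only [hg, Function.update_self, Function.update_idem] at h1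
    rw [← mul_assoc, mul_inv_cancel₀ hc, one_mul, Function.update_eq_self] at h1
    exact h1
  · show g _ ∈ interior S
    simp only [hg, Function.update_self, Function.update_idem]
    rw [← mul_assoc, inv_mul_cancel₀ hc, one_mul, Function.update_eq_self]
    exact hx

theorem rotations {K : Set (X × (Fin r → ℂ))} (hK : Convex ℝ K) (hKc : IsCompact K)
    (hKi : (interior K).Nonempty) (p n : Fin r → ℕ) (hn : ∀ j, 0 < n j)
    (hpn : ∀ j, 2 * (p j + n j) < p j * n j) (hinv : ∀ j, Inv K j (om (p j)))
    {N : ℕ} (hN : ∃ T : Finset X, T.card ≤ N ∧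
      {t | (t, (0 : Fin r → ℂ)) ∈ K} ⊆
        ⋃ t ∈ T, (fun x => t + x) '' interior {t | (t, (0 : Fin r → ℂ)) ∈ K}) :
    ∃ T : Finset (X × (Fin r → ℂ)), T.card ≤ N * ∏ j, (n j + 1) ∧
      K ⊆ ⋃ t ∈ T, (fun x => t + x) '' interior K := by
  have hp : ∀ j, 2 ≤ p j := by
    intro j
    by_contra hcon
    push Not at hcon
    have := hpn j
    have h1 : p j ≤ 1 := by omega
    nlinarith
  have hom : ∀ j, om (p j) ≠ 0 := fun j => Complex.exp_ne_zero _
  -- a common gain
  obtain ⟨κ, hκ, hκj⟩ : ∃ κ : ℝ, 0 < κ ∧ ∀ j, κ ≤ Real.cos (Real.pi / n j + Real.pi / p j) := by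
    have hpos : ∀ j, 0 < Real.cos (Real.pi / n j + Real.pi / p j) := by
      intro j
      have hpi := Real.pi_pos
      have hp' : (0 : ℝ) < p j := by
        have := hp j
        have : 0 < p j := by omega
        exact_mod_cast this
      have hN' : (0 : ℝ) < n j := by exact_mod_cast hn j
      have h1 : 2 * ((p j : ℝ) + n j) < p j * n j := by exact_mod_cast hpn j
      refine Real.cos_pos_of_mem_Ioo ⟨?_, ?_⟩
      · have : 0 < Real.pi / n j + Real.pi / p j := by positivity
        linarith
      · rw [div_add_div _ _ hN'.ne' hp'.ne', div_lt_div_iff₀ (by positivity) (by norm_num)]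
        nlinarith
    rcases isEmpty_or_nonempty (Fin r) with hr | hr
    · exact ⟨1, one_pos, fun j => (hr.false j).elim⟩
    · obtain ⟨j₀, hj₀⟩ := Finite.exists_min fun j => Real.cos (Real.pi / n j + Real.pi / p j)
      exact ⟨_, hpos j₀, hj₀⟩
  obtain ⟨z, hz⟩ := hKi
  have hi : ∃ t₀, (t₀, (0 : Fin r → ℂ)) ∈ interior K :=
    ⟨z.1, zero_all hK.interior hp (fun j => inv_interior (hom j) (hinv j)) hz⟩
  obtain ⟨T, hT, hT'⟩ := blocks (Y := fun _ : Fin r => ℂ) hK hKc
    (fun x hx => zero_all hK hp hinv hx) hi (fun j => roots (n j)) hκ (fun x hx j hxj => by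
      obtain ⟨v, hv, h1⟩ := dir (p j) (n j) (by have := hp j; omega) (hn j) (hpn j) hxj
      refine ⟨v, hv, fun f hf => ?_⟩
      have h2 : ∀ k : ℤ, blk (Y := fun _ : Fin r => ℂ) f j
          (Complex.exp ((2 * Real.pi * k / p j : ℝ) * I) * x.2 j) ≤ blk f j (x.2 j) := by
        intro k
        have hpz : (p j : ℤ) ≠ 0 := by have := hp j; exact_mod_cast (by omega : p j ≠ 0)
        have h3 : Complex.exp ((2 * Real.pi * k / p j : ℝ) * I) = om (p j) ^ (k % p j).toNat := by
          rw [om_pow]
          have h2 := Int.emod_nonneg k hpz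
          have h3 : (((k % p j).toNat : ℕ) : ℝ) = ((k % p j : ℤ) : ℝ) := by
            have : (((k % p j).toNat : ℕ) : ℤ) = k % p j := Int.toNat_of_nonneg h2
            exact_mod_cast this
          rw [h3, Complex.exp_eq_exp_iff_exists_int]
          refine ⟨k / p j, ?_⟩
          have h4 : ((k % p j : ℤ) : ℝ) = k - p j * ((k / p j : ℤ) : ℝ) := by
            have := Int.emod_add_mul_ediv k (p j)
            have h5 : ((k % p j : ℤ) : ℝ) + p j * ((k / p j : ℤ) : ℝ) = k := by exact_mod_cast this
            linarith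
          have hNr : (p j : ℝ) ≠ 0 := by exact_mod_cast hpz
          have e : (2 * Real.pi * (k : ℝ) / p j) =
              (2 * Real.pi * ((k % p j : ℤ) : ℝ) / p j) + ((k / p j : ℤ) : ℝ) * (2 * Real.pi) := by
            rw [h4]; field_simp; ring
          rw [e]
          push_cast
          ring
        rw [h3]
        have h4 := hf _ ((hinv j).pow (k % p j).toNat hx)
        have e2 : f x = onX f x.1 + ∑ i, blk (Y := fun _ : Fin r => ℂ) f i (x.2 i) :=
          split' (Y := fun _ : Fin r => ℂ) f x.1 x.2
        rw [split' (Y := fun _ : Fin r => ℂ), e2] at h4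
        have h5 : ∑ i, blk (Y := fun _ : Fin r => ℂ) f i
            (Function.update x.2 j (om (p j) ^ (k % p j).toNat * x.2 j) i) ≤
            ∑ i, blk (Y := fun _ : Fin r => ℂ) f i (x.2 i) := by linarith
        rw [← Finset.add_sum_erase _ _ (Finset.mem_univ j),
          ← Finset.add_sum_erase Finset.univ (fun i => blk (Y := fun _ : Fin r => ℂ) f i (x.2 i))
            (Finset.mem_univ j), Function.update_self] at h5
        have h6 : ∑ i ∈ Finset.univ.erase j, blk (Y := fun _ : Fin r => ℂ) f i
            (Function.update x.2 j (om (p j) ^ (k % p j).toNat * x.2 j) i) =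
            ∑ i ∈ Finset.univ.erase j, blk (Y := fun _ : Fin r => ℂ) f i (x.2 i) :=
          Finset.sum_congr rfl fun i hi => by
            rw [Function.update_of_ne (Finset.ne_of_mem_erase hi)]
        rw [h6] at h5
        linarith
      refine (h1 _ h2).trans ?_
      have := mul_le_mul_of_nonneg_right (hκj j) (norm_nonneg (blk (Y := fun _ : Fin r => ℂ) f j))
      linarith) hN
  refine ⟨T, hT.trans (Nat.mul_le_mul_left _ (Finset.prod_le_prod' fun j _ => ?_)), hT'⟩
  exact Nat.succ_le_succ (card_roots _)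

end Pool.Agent.U122.Rot
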